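import Mathlib
import Pool.Agent.Y91.VH.Main

/-!
# The variational Hodge conjecture for products of abelian schemes with general monodromy and a
# family of varieties which does not determine their periods

Let `B` be (the universal covering of) the base, `A → B` a fibre product (repetitions allowed) of
families `A i` of principally polarized abelian varieties and `Y → B` ANY family of smooth
projective varieties. The homology of the fibres of `A` is trivialized: it is a rational space `W`
with an inclusion in the tangent space of `A_b` for every `b`; the cohomology `ℚ ^ v` of the fibres
of `Y` is trivialized, the Hodge structure of `Y_b` is given by its Hodge operator (multiplication
by `p - q` on `H ^ (p, q)`). Flat classes on `A ×_B Y` are the elements of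
`⨁ k, H^k(A) ⊗ H(Y) = HAZ W v`.

Suppose (`NotDetermined`) that through each point of `B` there is a connected Riemann surface
`U → B` such that each `A i` is a good family over `U` and its periods are not determined by those
of `Y`: there are two points `s`, `t` of `U` such that the flat Hodge structures `H(Y_s)` and
`H(Y_t)` are the same and the periods of `A i` at `s` and `t` are different. For instance `Y` is a
fixed variety and `A i` is not constant along `U`; or `U` is the universal covering of a curve and
some monodromy operator is trivial on the cohomology of `Y` and not trivial on the homology of `A i`
(so it suffices that `A i` has bad reduction at a cusp at which `Y` has good reduction).

Good families are those which satisfy one of the following conditions (`HasGoodRank`).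

1. A member is simple, more than half of the endomorphisms are symmetric for the Rosati involution
   (the endomorphism algebra is of type I or II in the classification of Albert) and some rational
   rank `r` is different from `0`, `g / 2` and `g`, and `(g, r)` is not exceptional, or there is
   another rational rank. A rational rank is the rank of `γ - 1` for a monodromy operator `γ` with
   `(γ - 1) ^ 2 = 0`, that is the dimension of the toric part at a semistable degeneration, or the
   rank of a rational square zero element of the Lie algebra generated by the Hodge operators. The
   pair is exceptional if `2 g = e * C(4j+2, 2j+1)` and `r = e * C(4j, 2j)` for some `e` and `j ≥ 1`,
   for instance `(10, 6)`, `(126, 70)`.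
2. All endomorphisms are rational numbers, some rank `r` of the family is different from `0`, `g / 2`
   and `g`, and `(g, r)` is not exceptional with `e = 1` or there is another rank, and `2 g` does not
   divide the product of two of the ranks. A rank is the rank of the Kodaira-Spencer map at one
   point, of the difference of two period matrices, of the image of a period matrix under a
   derivation of the complex numbers, or of any square zero element of the Lie algebra generated by
   the Hodge operators.
3. A member is simple and some rank of the family is odd, or is two and the centre of the
   endomorphism algebra is totally real.

Then (1) each flat class on `A ×_B Y` which is a Hodge class on all fibres is a sum of products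
`f ⊗ x`, where `f` is flat and on each `A_b` a combination of products of divisor classes, and `x`
is flat and a Hodge class on all `Y_b`. (2) The variational Hodge conjecture for `Y → B` implies
the variational Hodge conjecture for `A ×_B Y → B`: a flat class which is a Hodge class on all
fibres (by the theorem of the fixed part this is so for a global section which is algebraic on one
fibre) and is algebraic on one fibre is algebraic on all fibres. For a fixed variety `Y` the
assumption is void, and this is the variational Hodge conjecture for `A × Y`; for a point `Y` it is
the variational Hodge conjecture for `A`.

Of algebraic cycles only two properties are used, which are the fields of `CycleSystem`: the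
product of a product of divisor classes on `A_b` and an algebraic class on `Y_b` is algebraic, and
`pr_*(F ∧ β)` is algebraic on `Y_b` for `F` algebraic on `A_b × Y_b` and a product `β` of divisor
classes on `A_b`, `pr : A_b × Y_b → Y_b`.

The conditions on the ranks are optimal: the spin representations of `SO(2, n)` give families whose
unipotent monodromy operators with square zero have the ranks `g / 2` and `g`, and the exterior
powers of degree `2 j + 1` of the standard representation of `SU(1, 4 j + 1)`, of dimension
`C(4j+2, 2j+1)`, give unipotent operators with square zero of rank `C(4j, 2j)`.

The proof. A classification free argument with Jordan pairs shows that the Lie algebra generated by
the Hodge operators of `A i` is symplectic over the complex numbers on each irreducible piece. (If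
it is not, then all its square zero elements are primitive and have the same rank, and the dual
bases of the Jordan pair satisfy the relations of the creation and annihilation operators on the
exterior algebra, or the rank is a fourth or a half of the dimension.) Let `F` be a flat class
which is a Hodge class on all fibres. The difference of the Hodge operators of `A` at the points
`s`, `t` kills `F`. The elements of the Hodge Lie algebra of a very general `A_b` which kill `F` form
an ideal, stable under the automorphisms of the complex numbers, which acts without invariants on
the homology of each factor since this factor is simple; the complementary ideal has zero product
with it, so it is zero. Hence `F` is killed by the Hodge operators of the `A_b` and of the `Y_b`. The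
components of `F` on `Y` are found by the perfect pairing of Hodge classes on `A`.
-/

namespace Pool.Agent.Results.MP_e9c0f3_ag.AllRanksTimesFamily

open Pool.Agent.H204R3.CM Pool.Agent.H194R3.CM Pool.Agent.W437.HD Pool.Agent.W437.HP
  Pool.Agent.TH131.GHC Pool.Agent.TH504.VY Pool.Agent.Y91.VH

/-- The variational Hodge conjecture for `A ×_B Y`, where `A` is a fibre product
`A (c 0) × ... × A (c (n - 1))` of good families of abelian varieties whose periods are not determined
by the periods of `Y`. -/
theorem result {ι B : Type} [Nonempty B] {g : ι → ℕ}
    (Z : ∀ i, B → Matrix (Fin (g i)) (Fin (g i)) ℂ) {n : ℕ} (c : Fin n → ι) {v : ℕ}
    (Y : B → Coh v) (h : NotDetermined Z Y) :
    HodgeClassesAreProducts (fibreProduct Z c) Y ∧ VariationalFromY (fibreProduct Z c) Y :=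
  main Z c Y h

end Pool.Agent.Results.MP_e9c0f3_ag.AllRanksTimesFamily
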