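import Pool.Agent.Y128.CV.Var
import Pool.Agent.Y574.CY.Eig
import Pool.Agent.Y907.CY.REF

/-!
# The variational Hodge conjecture for families of products of Jacobians of cyclic coverings

Let `S` be a smooth connected quasi-projective complex variety and `X_c → S`, `c` in a finite set,
families of curves `y ^ n = ∏ (x - a_t) ^ (m_t)`, where the branch points `a_t` depend on the point of `S`
and are distinct at all points; the degrees `n = n_c ≥ 3`, the numbers `r = r_c ≥ 5` of branch
points and the exponents `m_t`, nonzero modulo `n`, with sum zero, are arbitrary. Let `V_c` be the
primitive part of the first cohomology (where the automorphism `σ_c` of order `n` has primitive
roots of unity as eigenvalues) of the fibre of `X_c` at the base point, with rational coefficients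
(or coefficients in any field `k` of characteristic zero), `Γ` the fundamental group of `S`, `ρ c` the
monodromy representation and `ω c` the polarization. `MonodromyOfCoverings` means, beside standard
properties (semisimplicity: Deligne):

* the endomorphisms of the local system `V_c` over finite coverings of `S` are the polynomials in `σ c`
  (this means that the eigenspaces are irreducible under the subgroups of finite index and not
  isomorphic; then the monodromy groups of the eigenspaces are infinite, and there are elements
  with eigenvalues whose quotient is not a root of unity, `eigenvalues`);
* on the boundary of `S` there is for every `c` one divisor (or arc) at which exactly two of the
  branch points of `X_c` meet, with the sum of their two exponents (times the multiplicity) prime to `n`,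
  where the monodromy on the other `V_c'` is trivial.

This holds for the families of all such curves (`S` the product of the spaces of `r_c` distinct
points of the line, if the sum of two exponents is prime to `n_c`), and for many smaller families.

Theorem (`FlatClassesStayAlgebraic`): the variational Hodge conjecture holds for all fibre products
over `S` of powers of the Jacobians (primitive parts): a flat class in the even cohomology, in any
degree, which is algebraic in the fibre at the base point is algebraic in every fibre. This
includes flat sections over finite coverings of `S`.

The input about algebraic cycles, `TwoFibres`: `alg m` are the linear combinations of classes of
algebraic cycles on the fibre at the base point in the `2 m`-th tensor power of `⊕ V_c`, `alg' m` those on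
the fibre at another point of `S` (transported to the base point along a path).

* `motivic`: on abelian varieties over `ℂ` numerical and homological equivalence of cycles coincide
  (Lieberman), so that the motives generated by the fibre form a semisimple Tannakian category
  (Jannsen) and the algebraic classes are the invariants of the motivic Galois group.
* `degreeTwo`: flat classes of degree two are algebraic (by the first assumption they are
  combinations of the polarizations twisted by the `σ ^ i`).
* `constant`: the determinant `⋀ ^ (r - 2)` of the eigenspace of `σ c` for a primitive root of unity is, by
  correspondences which exist over the whole of `S`, a direct factor of the constant motive of the Fermat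
  variety of degree `n` and dimension `r - 2`: the symmetric power of the line is the projective
  space of the polynomials `g` of degree at most `r - 2`, and the coverings of the factors
  give the covering `y_t ^ n = g(a_t)`, branched over `r` hyperplanes in general position; the `g(a_t)`
  satisfy one linear relation. A tensor product of such motives of rank one is a
  constant motive of rank one, and it contains an algebraic class in one fibre if and only if it
  does in all fibres.

Such flat classes are Weil classes and their generalizations to all cyclotomic fields, and they
are not generated by divisors. The Hodge conjecture for them is equivalent to the Hodge conjecture for the
corresponding classes on Fermat varieties, which is open in general; the theorem does not use it.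

Proof: by the main part of MP_938ce2_ag.CyclicCoverings (the complex reflections and one element with
eigenvalues as above give the special linear Lie algebras of all eigenspaces in the annihilator
Lie algebra of a flat class), applied to the monodromy group, all flat classes are combinations of
products of flat classes of degree two and determinants. The motivic Galois group of the
fibre at the base point commutes with the projections to the eigenspaces, so it acts on each such
product by a character. An invariant combination is a combination of invariant products.

The parts `t_EIG` and `t_REF` are by helper574 and helper907.
-/

namespace Pool.Agent.Results.MP_e9c0f3_ag.CyclicCoverings

open Pool.Agent.Y128.CV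

/-- The variational Hodge conjecture for families of products of Jacobians of cyclic coverings of the line
(`Γ` is the fundamental group of the base, `V c` the primitive part of the first cohomology of the
fibre of the family with the number `c` at the base point, `z` any primitive root of unity of
order `level C`). -/
theorem result {k Γ ι : Type} [Field k] [CharZero k] [Group Γ] [Fintype ι] [DecidableEq ι]
    {V : ι → Type} [∀ c, AddCommGroup (V c)] [∀ c, Module k (V c)]
    [∀ c, FiniteDimensional k (V c)] (C : ι → Covering) (ρ : ∀ c, Representation k Γ (V c))
    (ω : ∀ c, V c →ₗ[k] V c →ₗ[k] k) (σ : ∀ c, Module.End k (V c))
    (h : MonodromyOfCoverings C ρ ω σ) (z : AlgebraicClosure k)
    (hz : IsPrimitiveRoot z (level C))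
    (alg alg' : ∀ m, Submodule (AlgebraicClosure k) (Forms (AlgebraicClosure k) (Total k V) m))
    (hA : TwoFibres (rep ρ) (chi (1 : Γ →* k)) (eigAt C σ z) (fun i => (C i.1).rank) alg alg') :
    FlatClassesStayAlgebraic (rep ρ) (chi (1 : Γ →* k)) alg alg' :=
  main_var Pool.Agent.Y574.CY.t_EIG (Pool.Agent.Y907.CY.t_REF Pool.Agent.Y574.CY.t_EIG) h hz hA

end Pool.Agent.Results.MP_e9c0f3_ag.CyclicCoverings
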