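import Pool.Agent.Y121.ZI.Pow
import Pool.Agent.Y121.ZI.FamDefs

/-!
# MP_e9c0f3_ag: the index law for the variational Hodge conjecture

For every smooth projective family `X → S` and every point `s` of `S`: the dimension of the space of
global sections of the cohomology of `X^{2n} → S` (fibre powers) whose value at `s` is algebraic,
divided by the rank of the group of the sections which are algebraic everywhere modulo numerical
equivalence, converges to some `N` in `{1, 2, 3, …, ∞}`; `N = 1` if and only if for all fibre powers
`X^n → S` all sections which are algebraic at `s` are algebraic everywhere, and numerically trivial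
sections vanish; if `N` is finite, the latter holds and all sections algebraic at `s` on all fibre
powers are generated by sections which are algebraic everywhere and at most `N - 1` of them.
-/

universe v w

namespace Pool.Agent.Results.MP_e9c0f3_ag.IndexLaw

open Pool.Agent.Y121.ZI

lemma algAt_map (T : FamTheory.{v, w}) (s : T.Pt) {X Y : T.Obj} {f : T.H X →ₗ[ℚ] T.H Y}
    (hf : f ∈ T.S X Y) {x : T.H X} (hx : x ∈ T.algAt s X) : f x ∈ T.algAt s Y := by
  have hf' : f ∈ Submodule.span ℚ (T.cor X Y : Set (T.H X →ₗ[ℚ] T.H Y)) := hf
  clear hf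
  induction hf' using Submodule.span_induction with
  | mem f hf => exact T.algAt_cor s X Y f hf x hx
  | zero => exact Submodule.zero_mem _
  | add f g hf hg hf' hg' => exact Submodule.add_mem _ hf' hg'
  | smul c f hf hf' => exact Submodule.smul_mem _ c hf'

/-- The sections which are algebraic at `s` form a stable system of classes. -/
def cls (T : FamTheory.{v, w}) (s : T.Pt) : NCTheory.Cls T.toNCTheory where
  C := T.algAt s
  map := fun _ hf _ hx => algAt_map T s hf hx
  one := T.algAt_one s

lemma alg_le (T : FamTheory.{v, w}) (s : T.Pt) (X : T.Obj) : T.alg X ≤ T.algAt s X := by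
  rw [NCTheory.alg, values, Submodule.span_le]
  rintro _ ⟨f, hf, rfl⟩
  exact T.algAt_cor s _ _ f hf _ (T.algAt_one s)

lemma vhc_iff (T : FamTheory.{v, w}) (s : T.Pt) (X : T.Obj) :
    T.VHC s X ↔ T.algAt s X ≤ T.alg X :=
  ⟨fun h => (le_iInf h).trans (T.all X), fun h t => h.trans (alg_le T t X)⟩

/-- The index law for sections which are algebraic at a point. -/
theorem result (T : FamTheory.{v, w}) (s : T.Pt) (X : T.Obj) [Nontrivial (T.H X)] :
    ∃ N : ℕ∞, 1 ≤ N ∧ T.PowIndex (T.algAt s) X N ∧
      (N = 1 ↔ (∀ n, T.VHC s (T.pow X n)) ∧ ∀ n, T.StdD (T.pow X n)) ∧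
      (N ≠ ⊤ → (∀ n, T.StdD (T.pow X n)) ∧ T.PowGenerated (T.algAt s) X N) := by
  simp only [vhc_iff]
  exact NCTheory.pow_law (cls T s) T.dual X

end Pool.Agent.Results.MP_e9c0f3_ag.IndexLaw
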