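import Pool.Agent.Y89.TW.Main
import Pool.Agent.Y702.TW.Wt4
import Pool.Agent.Y89.KS.MainE2
import Pool.Agent.Y89.TU.Cod2

/-!
# The variational Hodge conjecture for families of Kuga-Satake varieties: a zero-one law

Let `V` be a polarised variation of Hodge structure of K3 type over a connected base (for example
the primitive cohomology of a family of K3 surfaces) and `K` the family of its Kuga-Satake
varieties, a family of abelian varieties over the base. We transport everything along paths to one
fibre. Then the family is given by the following data.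

* `S`: the set of points of the base.
* `V s : HS n` (starting files), `s ∈ S`: the polarised rational Hodge structure `V_s`, twisted to
  weight zero, given by the form `(V s).Q`, which does not depend on `s`, and the Hodge operator
  `(V s).x`, which is `1`, `0`, `-1` on the pieces of type `(1,-1)`, `(0,0)`, `(-1,1)`. It is of K3
  type: `trace (x^2) = 2`.
* `W s : HW w` (starting files): `H^1(K_s, ℚ)` with the Riemann form `(W s).E`, which does not
  depend on `s`, and the Hodge operator `(W s).y`, which is `1/2` and `-1/2` on the two pieces.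
* `KugaSatake V W γ c`: the flat rational operators `γ_i` make `W` a module over the Clifford
  algebra of the form `c Q`, and the Hodge structure of each `W s` is the one given by this module,
  as in the construction of Kuga and Satake.

A class in `H^1(K_s)^{⊗ k} ⊂ H^k(K_s^k)` is, by duality, a rational form in `k` variables on `W`;
the same form on all fibres is a flat section. `A s k` is the space of algebraic classes of this
kind on `K_s^k`; `AlgebraicClasses` lists its formal properties. A point `v` of the base is very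
general: a class algebraic on `K_v^k` is algebraic on all `K_s^k` (cycles spread out and
specialise). Some point `o` of the base is a point at which the Hodge conjecture holds for all
powers of `K_o`; such points are dense in the moduli spaces (`K_o` isogenous to a power of an
elliptic curve with complex multiplication, where `V_o` has maximal Picard number).

The variational Hodge conjecture for a flat section `f` says that `f` is algebraic on all fibres if
it is on one. We prove: the variational Hodge conjecture for ONE flat section `f` on one fibre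
power implies the Hodge conjecture for all powers of all the fibres, and so the variational Hodge
conjecture for all fibre powers of `K`, if `f` is

* the class `Θ = ∑_{ij} (Q⁻¹)_{ij} (E γ_i) ⊗ (E γ_j)`; or
* (if `End V_v = ℚ` and `n ≥ 5`) any flat section of Hodge classes which is exceptional: not killed
  by all the test operators (`IsTest`; if `n ≡ 2` modulo `4`, also `m = 4`). These are elements of
  the Lie algebra of the Lefschetz group of `K_v`, which kills the polynomials in divisor classes:
  all of them if `n ≡ 1` modulo `4`; the operators `Z γ_i`, where `Z` is a multiple of the volume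
  element of the Clifford algebra, if `n ≡ 3`; the products `Z spin(x)` of operators in the Lie
  algebra of the Hodge group with elements of the centre of `End(K_v) ⊗ ℂ` if `n ≡ 0`; the skew
  elements of this centre if `n ≡ 2`.

So for these families the variational Hodge conjecture holds for all exceptional flat sections or
for none.
-/

open Matrix

namespace Pool.Agent.Results.MP_e9c0f3_ag.KugaSatakeFamilies

open Pool.Agent.W544.PG (HS HW mC)

noncomputable section

variable {n w : ℕ} {S : Type}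

/-- The operator `X` on `W ⊗ ℂ`, acting as a derivation on the complex forms in `k` variables. -/
def derivation {k : ℕ} (X : Matrix (Fin w) (Fin w) ℂ) (f : (Fin k → Fin w) → ℂ) :
    (Fin k → Fin w) → ℂ :=
  fun J => ∑ j, ∑ p, X p (J j) * f (Function.update J j p)

/-- A rational form in `k` variables on `W = H^1(K)` is a Hodge class: the Hodge operator, acting
as a derivation, kills it. -/
def IsHodgeClass (W : HW w) {k : ℕ} (t : (Fin k → Fin w) → ℚ) : Prop :=
  derivation W.y (fun J => (t J : ℂ)) = 0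

/-- A system `A` of spaces of rational classes in `H^1(K)^{⊗ k}` which has the formal properties of
the spaces of algebraic classes. -/
structure AlgebraicClasses (W : HW w) (A : ∀ k : ℕ, Submodule ℚ ((Fin k → Fin w) → ℚ)) :
    Prop where
  /-- algebraic classes are Hodge classes -/
  hodge : ∀ k : ℕ, ∀ t ∈ A k, IsHodgeClass W t
  /-- the class of a point -/
  unit : (fun _ => 1) ∈ A 0
  /-- exterior products -/
  product : ∀ (k l : ℕ) (f : (Fin k → Fin w) → ℚ) (g : (Fin l → Fin w) → ℚ),
    f ∈ A k → g ∈ A l → (fun J : Fin (k + l) → Fin w =>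
      f (fun i => J (Fin.castAdd l i)) * g (fun i => J (Fin.natAdd k i))) ∈ A (k + l)
  /-- permutations of the factors -/
  permutation : ∀ (k : ℕ) (σ : Equiv.Perm (Fin k)) (f : (Fin k → Fin w) → ℚ), f ∈ A k →
    (fun J : Fin k → Fin w => f (fun i => J (σ i))) ∈ A k
  /-- contraction of two variables with the polarisation -/
  contraction : ∀ (k : ℕ) (f : (Fin (k + 2) → Fin w) → ℚ), f ∈ A (k + 2) →
    (fun J : Fin k → Fin w => ∑ p, ∑ q, W.E⁻¹ p q * f (Fin.append J ![p, q])) ∈ A k
  /-- Lefschetz theorem on divisor classes of `K × K` -/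
  lefschetz : ∀ N : Matrix (Fin w) (Fin w) ℚ,
    IsHodgeClass W (fun J : Fin 2 → Fin w => N (J 0) (J 1)) →
    (fun J : Fin 2 → Fin w => N (J 0) (J 1)) ∈ A 2

/-- The family of Kuga-Satake varieties: the forms `Q`, `E` and the operators `γ_i` are flat, `V_s`
is of K3 type, the operators `γ_i` satisfy the relations of the Clifford algebra of the form `c Q`,
and the Hodge operator of `W_s` is the image of the Hodge operator `x` of `V_s` in the spin
representation, `y = (1 / 4c) ∑ (x Q⁻¹)_{ij} γ_i γ_j`. -/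
structure KugaSatake (V : S → HS n) (W : S → HW w) (γ : Fin n → Matrix (Fin w) (Fin w) ℚ)
    (c : ℚ) : Prop where
  flatQ : ∀ s t, (V s).Q = (V t).Q
  flatE : ∀ s t, (W s).E = (W t).E
  type : ∀ s, ((V s).x * (V s).x).trace = 2
  pos : 0 < w
  ne : c ≠ 0
  rel : ∀ s i j, γ i * γ j + γ j * γ i = (2 * c * (V s).Q i j) • (1 : Matrix (Fin w) (Fin w) ℚ)
  hodge : ∀ s, (W s).y = (1 / (4 * (c : ℂ))) •
    ∑ i, ∑ j, ((V s).x * (mC (V s).Q)⁻¹) i j • (mC (γ i) * mC (γ j))

/-- The class `Θ = ∑_{ij} (Q⁻¹)_{ij} (E γ_i) ⊗ (E γ_j)`. -/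
def theta (V : HS n) (W : HW w) (γ : Fin n → Matrix (Fin w) (Fin w) ℚ) : (Fin 4 → Fin w) → ℚ :=
  fun J => ∑ i, ∑ j, V.Q⁻¹ i j * (W.E * γ i) (J 0) (J 1) * (W.E * γ j) (J 2) (J 3)

/-- The variational Hodge conjecture for the flat section `f`: it is algebraic on all fibres if it
is on one. -/
def VariationalHodge (A : S → ∀ k : ℕ, Submodule ℚ ((Fin k → Fin w) → ℚ)) {m : ℕ}
    (f : (Fin m → Fin w) → ℚ) : Prop :=
  ∀ s, f ∈ A s m → ∀ t, f ∈ A t m

/-- The spin representation of the operator `x` on `V`: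
`(1 / 4c) ∑ (x Q⁻¹)_{ij} γ_i γ_j`. -/
def spin (V : HS n) (γ : Fin n → Matrix (Fin w) (Fin w) ℚ) (c : ℚ)
    (x : Matrix (Fin n) (Fin n) ℂ) : Matrix (Fin w) (Fin w) ℂ :=
  (1 / (4 * (c : ℂ))) • ∑ i, ∑ j, (x * (mC V.Q)⁻¹) i j • (mC (γ i) * mC (γ j))

/-- `X` commutes with the endomorphisms of `K`. -/
def CommutesWithEnd (W : HW w) (X : Matrix (Fin w) (Fin w) ℂ) : Prop :=
  ∀ D : Matrix (Fin w) (Fin w) ℚ, mC D * W.y = W.y * mC D → X * mC D = mC D * X

/-- `X` respects the Riemann form. -/
def IsSkew (W : HW w) (X : Matrix (Fin w) (Fin w) ℂ) : Prop :=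
  Xᵀ * mC W.E + mC W.E * X = 0

/-- `X` is in the centre of `End(K) ⊗ ℂ`: it commutes with the conjugates of the Hodge operator and
with the endomorphisms of `K`. -/
def IsCentral (W : HW w) (X : Matrix (Fin w) (Fin w) ℂ) : Prop :=
  (∀ σ : ℂ ≃+* ℂ, X * W.y.map σ = W.y.map σ * X) ∧ CommutesWithEnd W X

/-- The test operators:
* if `n ≡ 1` modulo `4`, the Lie algebra of the Lefschetz group of `K`, that is, the operators which
  commute with the endomorphisms of `K` and respect the Riemann form;
* if `n ≡ 3`, the `Z γ_i`, where `Z` commutes with the `γ_j` and the `Z γ_j` commute with the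
  endomorphisms of `K`;
* if `n ≡ 0`, the `Z spin(x)`, where `Z` is central and `x` is in `so(V)`;
* if `n ≡ 2`, the central operators which respect the Riemann form. -/
def IsTest (V : HS n) (W : HW w) (γ : Fin n → Matrix (Fin w) (Fin w) ℚ) (c : ℚ)
    (X : Matrix (Fin w) (Fin w) ℂ) : Prop :=
  (n % 4 = 1 ∧ CommutesWithEnd W X ∧ IsSkew W X) ∨
  (n % 4 = 3 ∧ ∃ (Z : Matrix (Fin w) (Fin w) ℂ) (i : Fin n), X = Z * mC (γ i) ∧
    ∀ j, Z * mC (γ j) = mC (γ j) * Z ∧ CommutesWithEnd W (Z * mC (γ j))) ∨
  (n % 4 = 0 ∧ ∃ (Z : Matrix (Fin w) (Fin w) ℂ) (x : Matrix (Fin n) (Fin n) ℂ),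
    X = Z * spin V γ c x ∧ IsCentral W Z ∧ xᵀ * mC V.Q + mC V.Q * x = 0) ∨
  (n % 4 = 2 ∧ IsCentral W X ∧ IsSkew W X)

/-- The form `f` (in four variables if `n ≡ 2` modulo `4`) is not killed by some test operator. -/
def Exceptional (V : HS n) (W : HW w) (γ : Fin n → Matrix (Fin w) (Fin w) ℚ) (c : ℚ) {m : ℕ}
    (f : (Fin m → Fin w) → ℚ) : Prop :=
  (n % 4 = 2 → m = 4) ∧ ∃ X : Matrix (Fin w) (Fin w) ℂ,
    IsTest V W γ c X ∧ derivation X (fun J => (f J : ℂ)) ≠ 0

/-- The endomorphisms of the Hodge structure `V` are the rational numbers. -/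
def EndIsQ (V : HS n) : Prop :=
  ∀ P : Matrix (Fin n) (Fin n) ℚ, mC P * V.x = V.x * mC P →
    ∃ r : ℚ, P = r • (1 : Matrix (Fin n) (Fin n) ℚ)

/-- **The variational Hodge conjecture for one flat section `f`, the class `Θ` or an exceptional
one, implies the Hodge conjecture for all powers of all the Kuga-Satake varieties `K_s`.** -/
theorem result (V : S → HS n) (W : S → HW w) (γ : Fin n → Matrix (Fin w) (Fin w) ℚ) (c : ℚ)
    (hK : KugaSatake V W γ c) (A : S → ∀ k : ℕ, Submodule ℚ ((Fin k → Fin w) → ℚ))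
    (hA : ∀ s, AlgebraicClasses (W s) (A s)) (v o : S)
    (hv : ∀ (k : ℕ) (t : (Fin k → Fin w) → ℚ), t ∈ A v k → ∀ s, t ∈ A s k)
    (ho : ∀ (k : ℕ) (t : (Fin k → Fin w) → ℚ), IsHodgeClass (W o) t → t ∈ A o k)
    (m : ℕ) (f : (Fin m → Fin w) → ℚ) (hf : ∀ s, IsHodgeClass (W s) f)
    (hVH : VariationalHodge A f)
    (h : (⟨m, f⟩ : (m : ℕ) × ((Fin m → Fin w) → ℚ)) = ⟨4, theta (V v) (W v) γ⟩ ∨
      5 ≤ n ∧ EndIsQ (V v) ∧ Exceptional (V v) (W v) γ c f)
    (s : S) (k : ℕ) (t : (Fin k → Fin w) → ℚ) (ht : IsHodgeClass (W s) t) : t ∈ A s k := by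
  have hd : ∀ (s : S) {k : ℕ} (t : (Fin k → Fin w) → ℚ), Pool.Agent.Y89.KS.HodgeW (W s) t ↔
      IsHodgeClass (W s) t := fun s k t => ⟨fun h => funext h, fun h J => congrFun h J⟩
  have hCl : ∀ s, Pool.Agent.Y89.KS.Cliff (V s) (W s) γ c :=
    fun s => ⟨hK.pos, hK.ne, hK.rel s, hK.hodge s⟩
  have hB : ∀ s, Pool.Agent.Y89.KS.CyclesW (W s) (A s) := fun s =>
    ⟨⟨(hA s).unit, (hA s).product, (hA s).permutation, (hA s).contraction⟩,
      fun N hN => (hA s).lefschetz N ((hd s _).1 hN)⟩
  have hfv : f ∈ A v m := hVH o (ho m f (hf o)) v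
  have hΘ : theta (V v) (W v) γ ∈ A v 4 := by
    rcases h with h | ⟨hn, hS, h4, X, hX, hXf⟩
    · cases h
      exact hfv
    · refine Pool.Agent.Y89.TW.zol_all Pool.Agent.Y702.TW.t_wt4 (hK.type v) hS hn (hCl v) (hB v)
        (fun k t ht => (hd v t).2 ((hA v).hodge k t ht)) hfv ?_ ?_
      · rcases hX with ⟨h1, hX, hX'⟩ | ⟨h3, Z, i, rfl, hZ⟩ | ⟨h0, Z, x, rfl, hZ, hx⟩ |
          ⟨h2, hX, hX'⟩
        · exact Or.inl ⟨h1, X, hX, hX', hXf⟩
        · exact Or.inr (Or.inl ⟨h3, Z, i, fun j => (hZ j).1, fun j => (hZ j).2, hXf⟩)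
        · exact Or.inr (Or.inr (Or.inl ⟨h0, Z, x, hZ.1, hZ.2, hx, hXf⟩))
        · exact Or.inr (Or.inr (Or.inr ⟨h2, h4 h2, X, ⟨hX.1, hX.2, hX'⟩, hXf⟩))
      have h0 := Pool.Agent.Y89.TU.theta_der (hCl v) (RingEquiv.refl ℂ)
      rw [Pool.Agent.Y89.KS.map_refl] at h0
      exact fun J => congrFun h0 J
  have hΘs := hv 4 _ hΘ s
  refine Pool.Agent.Y89.KS.mainE (hK.type s) (hCl s) (hB s) ?_ ((hd s t).2 ht)
  have e : Pool.Agent.Y89.KS.theta (V s) (W s) γ = theta (V v) (W v) γ := by
    funext J
    change ∑ i, ∑ j, (V s).Q⁻¹ i j * ((W s).E * γ i) (J 0) (J 1) * ((W s).E * γ j) (J 2) (J 3) =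
      ∑ i, ∑ j, (V v).Q⁻¹ i j * ((W v).E * γ i) (J 0) (J 1) * ((W v).E * γ j) (J 2) (J 3)
    rw [hK.flatQ s v, hK.flatE s v]
  rw [e]
  exact hΘs

end

end Pool.Agent.Results.MP_e9c0f3_ag.KugaSatakeFamilies
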